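import Pool.Agent.H.MP_1670b2_al.N

namespace Pool.Agent.Results.MP_1670b2_al.No

def Vanishes (F : Type) [Field F] (A : Type) [NonUnitalNonAssocRing A] [Module F A]
    [IsScalarTower F A A] [SMulCommClass F A A] (E : Set A)
    (f : FreeNonUnitalNonAssocAlgebra F ℕ) : Prop :=
  ∀ ρ : ℕ → A, (∀ i, ρ i ∈ E) → FreeNonUnitalNonAssocAlgebra.lift F ρ f = 0

def IsId (F : Type) [Field F] (A : Type) [NonUnitalNonAssocRing A] [Module F A]
    [IsScalarTower F A A] [SMulCommClass F A A] (f : FreeNonUnitalNonAssocAlgebra F ℕ) : Prop :=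
  Vanishes F A Set.univ f

def Follows (F : Type) [Field F] (S : Set (FreeNonUnitalNonAssocAlgebra F ℕ))
    (f : FreeNonUnitalNonAssocAlgebra F ℕ) : Prop :=
  ∀ (A : Type) [NonUnitalNonAssocRing A] [Module F A] [IsScalarTower F A A] [SMulCommClass F A A],
    (∀ g ∈ S, IsId F A g) → IsId F A f

def FinBased (F : Type) [Field F] (A : Type) [NonUnitalNonAssocRing A] [Module F A]
    [IsScalarTower F A A] [SMulCommClass F A A] : Prop :=
  ∃ T : Set (FreeNonUnitalNonAssocAlgebra F ℕ), T.Finite ∧ (∀ g ∈ T, IsId F A g) ∧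
    ∀ f, IsId F A f → Follows F T f

def Spechtian (F : Type) [Field F] (S : Set (FreeNonUnitalNonAssocAlgebra F ℕ)) : Prop :=
  ∀ (A : Type) [NonUnitalNonAssocRing A] [Module F A] [IsScalarTower F A A] [SMulCommClass F A A],
    (∀ g ∈ S, IsId F A g) → FinBased F A

noncomputable def gen (F : Type) [Field F] (k : ℕ) : ExteriorAlgebra F (ℕ →₀ F) :=
  ExteriorAlgebra.ι F (Finsupp.single k (1 : F))

def wordSpan (F : Type) [Field F] (G : Type) [Ring G] [Algebra F G] (e : ℕ → G) (i : ZMod 2) :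
    Submodule F G :=
  Submodule.span F {x | ∃ l : List ℕ, (l.length : ZMod 2) = i ∧ x = (l.map e).prod}

def IsSuper (F : Type) [Field F] (A : Type) [NonUnitalNonAssocRing A] [Module F A]
    (P : ZMod 2 → Submodule F A) : Prop :=
  IsCompl (P 0) (P 1) ∧ ∀ i j, ∀ x ∈ P i, ∀ y ∈ P j, x * y ∈ P (i + j)

def FinGen (F : Type) [Field F] (A : Type) [NonUnitalNonAssocRing A] [Module F A]
    [IsScalarTower F A A] [SMulCommClass F A A] : Prop :=
  ∃ s : Finset A, NonUnitalAlgebra.adjoin F (s : Set A) = ⊤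

def envelope (F : Type) [Field F] (G A : Type) [AddCommGroup G] [Module F G] [AddCommGroup A]
    [Module F A] (Q : ZMod 2 → Submodule F G) (P : ZMod 2 → Submodule F A) :
    Set (TensorProduct F G A) :=
  Submodule.span F {x | ∃ i, ∃ g ∈ Q i, ∃ a ∈ P i, x = TensorProduct.tmul F g a}

def EnvId (F : Type) [Field F] (G : Type) [Ring G] [Algebra F G] (e : ℕ → G) (A : Type)
    [NonUnitalNonAssocRing A] [Module F A] [IsScalarTower F A A] [SMulCommClass F A A]
    (P : ZMod 2 → Submodule F A) (f : FreeNonUnitalNonAssocAlgebra F ℕ) : Prop :=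
  Vanishes F (TensorProduct F G A) (envelope F G A (wordSpan F G e) P) f

def Generates (F : Type) [Field F] (A : Type) [NonUnitalNonAssocRing A] [Module F A]
    [IsScalarTower F A A] [SMulCommClass F A A] (P : ZMod 2 → Submodule F A)
    (S : Set (FreeNonUnitalNonAssocAlgebra F ℕ)) : Prop :=
  ∀ f, EnvId F (ExteriorAlgebra F (ℕ →₀ F)) (gen F) A P f ↔ Follows F S f

def FinSuperrank (F : Type) [Field F] (S : Set (FreeNonUnitalNonAssocAlgebra F ℕ)) : Prop :=
  ∃ (A : Type) (_ : NonUnitalNonAssocRing A) (_ : Module F A) (_ : IsScalarTower F A A)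
    (_ : SMulCommClass F A A) (P : ZMod 2 → Submodule F A),
    IsSuper F A P ∧ FinGen F A ∧ Generates F A P S

theorem isId_iff (F : Type) [Field F] (A : Type) [NonUnitalNonAssocRing A] [Module F A]
    [IsScalarTower F A A] [SMulCommClass F A A] (f : FreeNonUnitalNonAssocAlgebra F ℕ) :
    IsId F A f ↔ Pool.Agent.H.MP_1670b2_al.IsId F A f :=
  ⟨fun h ρ => h ρ fun _ => trivial, fun h ρ _ => h ρ⟩

open Pool.Agent.H.MP_1670b2_al in
theorem result (F : Type) [Field F] [CharZero F] :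
    ∃ S : Set (FreeNonUnitalNonAssocAlgebra F ℕ), Spechtian F S ∧ ¬ FinSuperrank F S := by
  refine ⟨{w1 F, w2 F}, fun A _ _ _ _ h => ?_, ?_⟩
  · obtain ⟨T, h1, h2⟩ := specht {f | No.IsId F A f} (h _ (by simp)) (h _ (by simp))
    exact ⟨T, T.finite_toSet, h1, fun f hf C _ _ _ _ hC => (isId_iff F C f).2
      (h2 f hf C fun g hg => (isId_iff F C g).1 (hC g hg))⟩
  · rintro ⟨A, _, _, _, _, P, ⟨hc, hm⟩, ⟨s, hs⟩, hg⟩
    obtain ⟨f, h1, n, h2⟩ := no_rank hc hm s hs
      ((hg (w2 F)).2 fun C _ _ _ _ hC => hC _ (by simp))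
    refine h2 ((isId_iff F _ f).1 ((hg f).1 h1 _ fun g hg' => (isId_iff F _ g).2 ?_))
    have := (inW_iff (F := F)).1 (inW_bT (F := F) n)
    rcases hg' with rfl | rfl
    · exact this.1
    · exact this.2

end Pool.Agent.Results.MP_1670b2_al.No
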